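import Mathlib
import Pool.Agent.NHT.IsoK

/-!
# The first order term at the sixth root of unity: the core (helper19)
-/

set_option autoImplicit false
set_option linter.unusedSectionVars false

open Module LaurentPolynomial Pool.Agent.SPT.Lin

namespace Pool.Agent.SLB

/-! ### the point `exp (i π / 3)` and the dual numbers -/

/-- `exp (i π / 3)` -/
noncomputable def A0 : ℂ := ⟨1 / 2, √3 / 2⟩

theorem A0_sq : A0 ^ 2 = A0 - 1 := by
  have h3 : √3 * √3 = 3 := Real.mul_self_sqrt (by norm_num)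
  rw [pow_two]
  apply Complex.ext
  · rw [Complex.mul_re, Complex.sub_re, Complex.one_re]
    show (1 / 2 : ℝ) * (1 / 2) - √3 / 2 * (√3 / 2) = 1 / 2 - 1
    linear_combination (-1 / 4) * h3
  · rw [Complex.mul_im, Complex.sub_im, Complex.one_im]
    show (1 / 2 : ℝ) * (√3 / 2) + √3 / 2 * (1 / 2) = √3 / 2 - 0
    ring

theorem A0_inv : A0 * (1 - A0) = 1 := by
  linear_combination -A0_sq

theorem A0_ne : A0 ≠ 0 := by
  intro h
  have h1 := A0_inv
  rw [h, zero_mul] at h1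
  exact zero_ne_one h1

theorem A0_inv' : A0⁻¹ = 1 - A0 := inv_eq_of_mul_eq_one_right A0_inv

theorem A0_cube : A0 ^ 3 = -1 := by
  linear_combination (A0 + 1) * A0_sq

theorem A0_norm : ‖A0‖ = 1 := by
  have h1 := congrArg norm A0_cube
  rw [norm_pow, norm_neg, norm_one] at h1
  exact (pow_eq_one_iff_of_nonneg (norm_nonneg _) (by norm_num)).1 h1

theorem A0_zpow_norm (n : ℤ) : ‖A0 ^ n‖ = 1 := by
  rw [norm_zpow, A0_norm, one_zpow]

open TrivSqZeroExt in
/-- the dual number `a + b ε` -/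
noncomputable def du (a b : ℂ) : DualNumber ℂ := inl a + inr b

theorem du_fst (a b : ℂ) : TrivSqZeroExt.fst (du a b) = a := by
  simp [du]

theorem du_snd (a b : ℂ) : TrivSqZeroExt.snd (du a b) = b := by
  simp [du]

theorem du_ext {x y : DualNumber ℂ} (h1 : TrivSqZeroExt.fst x = TrivSqZeroExt.fst y)
    (h2 : TrivSqZeroExt.snd x = TrivSqZeroExt.snd y) : x = y := TrivSqZeroExt.ext h1 h2

theorem fstm (x y : DualNumber ℂ) : TrivSqZeroExt.fst (x * y) =
    TrivSqZeroExt.fst x * TrivSqZeroExt.fst y := TrivSqZeroExt.fst_mul x y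

theorem sndm (x y : DualNumber ℂ) : TrivSqZeroExt.snd (x * y) =
    TrivSqZeroExt.fst x * TrivSqZeroExt.snd y + TrivSqZeroExt.snd x * TrivSqZeroExt.fst y :=
  DualNumber.snd_mul x y

theorem du_mul (a b c d : ℂ) : du a b * du c d = du (a * c) (a * d + b * c) := by
  apply du_ext
  · rw [fstm, du_fst, du_fst, du_fst]
  · rw [sndm, du_fst, du_fst, du_snd, du_snd, du_snd]

theorem du_one : (1 : DualNumber ℂ) = du 1 0 := by
  apply du_ext
  · rw [du_fst]; rfl
  · rw [du_snd]; rfl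

/-- the unit `A0 (1 + ε)` -/
noncomputable def u0 : (DualNumber ℂ)ˣ where
  val := du A0 A0
  inv := du A0⁻¹ (-A0⁻¹)
  val_inv := by
    rw [du_mul, mul_inv_cancel₀ A0_ne, mul_neg, mul_inv_cancel₀ A0_ne, neg_add_cancel, du_one]
  inv_val := by
    rw [du_mul, inv_mul_cancel₀ A0_ne, neg_mul, inv_mul_cancel₀ A0_ne, add_neg_cancel, du_one]

theorem u0_zpow (n : ℤ) : ((u0 ^ n : (DualNumber ℂ)ˣ) : DualNumber ℂ) =
    du (A0 ^ n) (n * A0 ^ n) := by
  induction n using Int.induction_on with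
  | zero =>
    rw [zpow_zero, Units.val_one, zpow_zero, du_one, Int.cast_zero, zero_mul]
  | succ n ih =>
    rw [zpow_add_one, Units.val_mul, ih]
    show du _ _ * du A0 A0 = _
    rw [du_mul, zpow_add_one₀ A0_ne]
    congr 1
    push_cast
    ring
  | pred n ih =>
    rw [zpow_sub_one, Units.val_mul, ih]
    show du _ _ * du A0⁻¹ (-A0⁻¹) = _
    rw [du_mul, zpow_sub_one₀ A0_ne]
    congr 1
    push_cast
    ring

/-- the value and the first order term at `A0` -/
noncomputable def ev : ℤ[T;T⁻¹] →+* DualNumber ℂ :=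
  LaurentPolynomial.eval₂ (Int.castRingHom (DualNumber ℂ)) u0

theorem ev_T (n : ℤ) : ev (T n) = du (A0 ^ n) (n * A0 ^ n) := by
  unfold ev
  rw [eval₂_T, u0_zpow]

/-- `A δ'(A)` at `A0` -/
noncomputable def dd : ℂ := 2 - 4 * A0

theorem dd_norm : ‖dd‖ = 2 * √3 := by
  have h3 : √3 * √3 = 3 := Real.mul_self_sqrt (by norm_num)
  have h1 : dd = ⟨0, -(2 * √3)⟩ := by
    unfold dd
    apply Complex.ext
    · rw [Complex.sub_re, Complex.mul_re]
      show (2 : ℝ) - ((4 : ℝ) * (1 / 2) - 0 * (√3 / 2)) = 0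
      ring
    · rw [Complex.sub_im, Complex.mul_im]
      show (0 : ℝ) - ((4 : ℝ) * (√3 / 2) + 0 * (1 / 2)) = -(2 * √3)
      ring
  rw [h1, Complex.norm_def, Complex.normSq_mk]
  have h2 : (0 : ℝ) * 0 + -(2 * √3) * -(2 * √3) = (2 * √3) * (2 * √3) := by ring
  rw [h2]
  exact Real.sqrt_mul_self (by positivity)

theorem A0_zpow2 : A0 ^ (2 : ℤ) = A0 - 1 := by
  rw [← A0_sq]
  norm_cast

theorem A0_zpow2n : A0 ^ (-2 : ℤ) = -A0 := by
  rw [zpow_neg, A0_zpow2]
  refine inv_eq_of_mul_eq_one_right ?_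
  linear_combination -A0_sq

theorem ev_dl : ev (dl ℤ) = du 1 dd := by
  unfold dl
  rw [map_sub, map_neg, ev_T, ev_T, A0_zpow2, A0_zpow2n]
  apply du_ext
  · simp only [TrivSqZeroExt.fst_sub, TrivSqZeroExt.fst_neg, du_fst]
    ring
  · simp only [TrivSqZeroExt.snd_sub, TrivSqZeroExt.snd_neg, du_snd]
    unfold dd
    push_cast
    ring

theorem du_pow (b : ℂ) (m : ℕ) : du 1 b ^ m = du 1 (m * b) := by
  induction m with
  | zero => rw [pow_zero, du_one, Nat.cast_zero, zero_mul]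
  | succ m ih =>
    rw [pow_succ, ih, du_mul, one_mul, mul_one, one_mul]
    congr 1
    push_cast
    ring

theorem ev_dlpow (m : ℕ) : ev (dl ℤ ^ m) = du 1 (m * dd) := by
  rw [map_pow, ev_dl, du_pow]

/-- the sign of a choice -/
def sg (b : Bool) : ℤ := if b then 1 else -1

theorem A0_zpow3 (n : ℤ) : A0 ^ (3 * n) = (-1) ^ n := by
  rw [zpow_mul]
  congr 1
  rw [← A0_cube]
  norm_cast

theorem al_qu (b : Bool) : al ℤ (!b) * qu ℤ b = -T (3 * sg b) := by
  unfold al qu sg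
  cases b
  · simp only [Bool.not_false, if_true, Bool.false_eq_true, if_false]
    rw [mul_neg, ← T_add]
    norm_num
  · simp only [Bool.not_true, if_true, Bool.false_eq_true, if_false]
    rw [mul_neg, ← T_add]
    norm_num

theorem ev_al_qu (b : Bool) : ev (al ℤ (!b) * qu ℤ b) = du 1 (3 * sg b) := by
  rw [al_qu, map_neg, ev_T, A0_zpow3]
  have h1 : ((-1 : ℂ)) ^ sg b = -1 := by
    unfold sg
    cases b <;> norm_num
  rw [h1]
  apply du_ext
  · rw [TrivSqZeroExt.fst_neg, du_fst, du_fst, neg_neg]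
  · rw [TrivSqZeroExt.snd_neg, du_snd, du_snd]
    push_cast
    ring

theorem ev_prod {ι : Type} [DecidableEq ι] (s : Finset ι) (f : ι → ℤ[T;T⁻¹]) (a : ι → ℂ)
    (h : ∀ i ∈ s, ev (f i) = du 1 (a i)) : ev (∏ i ∈ s, f i) = du 1 (∑ i ∈ s, a i) := by
  induction s using Finset.induction_on with
  | empty => rw [Finset.prod_empty, map_one, Finset.sum_empty, du_one]
  | insert i s hi ih =>
    rw [Finset.prod_insert hi, map_mul, h i (Finset.mem_insert_self i s),
      ih fun j hj => h j (Finset.mem_insert_of_mem hj), du_mul, Finset.sum_insert hi]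
    congr 1
    · ring
    · ring

/-- the value at `A0` -/
noncomputable def ef : ℤ[T;T⁻¹] →+* ℂ :=
  ((TrivSqZeroExt.fstHom ℂ ℂ ℂ : DualNumber ℂ →ₐ[ℂ] ℂ) : DualNumber ℂ →+* ℂ).comp ev

/-- the first order term at `A0` -/
noncomputable def es : ℤ[T;T⁻¹] →+ ℂ :=
  ((TrivSqZeroExt.sndHom ℂ ℂ).toAddMonoidHom).comp ev.toAddMonoidHom

theorem ef_eq (x : ℤ[T;T⁻¹]) : ef x = TrivSqZeroExt.fst (ev x) := rfl

theorem es_eq (x : ℤ[T;T⁻¹]) : es x = TrivSqZeroExt.snd (ev x) := rfl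

theorem es_mul (x y : ℤ[T;T⁻¹]) : es (x * y) = ef x * es y + es x * ef y := by
  rw [es_eq, map_mul, sndm]
  rfl

theorem ef_du {x : ℤ[T;T⁻¹]} {a b : ℂ} (h : ev x = du a b) : ef x = a := by
  rw [ef_eq, h, du_fst]

theorem es_du {x : ℤ[T;T⁻¹]} {a b : ℂ} (h : ev x = du a b) : es x = b := by
  rw [es_eq, h, du_snd]

theorem ef_qu_norm (b : Bool) : ‖ef (qu ℤ b)‖ = 1 := by
  unfold qu
  cases b
  · simp only [Bool.false_eq_true, if_false]
    rw [map_neg, norm_neg, ef_du (ev_T (-4)), A0_zpow_norm]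
  · simp only [if_true]
    rw [map_neg, norm_neg, ef_du (ev_T 4), A0_zpow_norm]

theorem ef_al_norm (b : Bool) : ‖ef (al ℤ b)‖ = 1 := by
  unfold al
  cases b
  · simp only [Bool.false_eq_true, if_false]
    rw [ef_du (ev_T (-1)), A0_zpow_norm]
  · simp only [if_true]
    rw [ef_du (ev_T 1), A0_zpow_norm]

/-! ### the state sum -/

variable {n : ℕ}

open Classical in
/-- the product of the weights of the crossings of a class -/
noncomputable def pv (M : Matrix (Fin n) (Fin n) (ZMod 2)) (σ : Fin n → Bool)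
    (v : Fin n → ZMod 2) : ℤ[T;T⁻¹] := pw M (fun c => qu ℤ (σ c)) Finset.univ v

theorem ef_pv_norm (M : Matrix (Fin n) (Fin n) (ZMod 2)) (σ : Fin n → Bool)
    (v : Fin n → ZMod 2) : ‖ef (pv M σ v)‖ = 1 := by
  unfold pv pw
  rw [map_prod, norm_prod]
  exact Finset.prod_eq_one fun c _ => ef_qu_norm _

open Classical in
theorem state_sum (M : Matrix (Fin n) (Fin n) (ZMod 2)) (hM : ∀ i j, M i j = M j i)
    (σ : Fin n → Bool) : dl ℤ ^ M.rank * SS ℤ M σ = PF ℤ σ *
      ∑ U ∈ (Finset.univ.image M).powerset, (∏ v ∈ U, (pv M σ v - 1)) * dl ℤ ^ ex M U := by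
  rw [SS_eq M hM σ]
  congr 1
  exact (expand (Finset.univ.image M) (pv M σ) (ph ℤ M)).symm

open Classical in
theorem prod_pv (M : Matrix (Fin n) (Fin n) (ZMod 2)) (σ : Fin n → Bool) :
    ∑ U ∈ (Finset.univ.image M).powerset, ∏ v ∈ U, (pv M σ v - 1) = ∏ c, qu ℤ (σ c) := by
  rw [← Finset.prod_one_add]
  refine Eq.trans (Finset.prod_congr rfl fun v _ => ?_) (Finset.prod_fiberwise_of_maps_to
    (s := (Finset.univ : Finset (Fin n))) (t := Finset.univ.image M) (g := fun c => M c)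
    (fun c _ => Finset.mem_image_of_mem M (Finset.mem_univ c)) (fun c => qu ℤ (σ c)))
  rw [add_sub_cancel]
  unfold pv pw
  refine Finset.prod_congr ?_ fun _ _ => rfl
  ext c
  simp only [Finset.mem_filter]

open Classical in
/-- the weight of a set of classes at `A0` -/
noncomputable def pp (M : Matrix (Fin n) (Fin n) (ZMod 2)) (σ : Fin n → Bool)
    (U : Finset (Fin n → ZMod 2)) : ℂ := ∏ v ∈ U, (ef (pv M σ v) - 1)

theorem pp_eq (M : Matrix (Fin n) (Fin n) (ZMod 2)) (σ : Fin n → Bool)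
    (U : Finset (Fin n → ZMod 2)) : ef (∏ v ∈ U, (pv M σ v - 1)) = pp M σ U := by
  unfold pp
  rw [map_prod]
  refine Finset.prod_congr rfl fun v _ => ?_
  rw [map_sub, map_one]

theorem pp_norm (M : Matrix (Fin n) (Fin n) (ZMod 2)) (σ : Fin n → Bool)
    (U : Finset (Fin n → ZMod 2)) : ‖pp M σ U‖ ≤ 2 ^ U.card := by
  unfold pp
  rw [norm_prod]
  calc ∏ v ∈ U, ‖ef (pv M σ v) - 1‖ ≤ ∏ _v ∈ U, (2 : ℝ) := by
        refine Finset.prod_le_prod (fun v _ => norm_nonneg _) fun v _ => ?_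
        calc ‖ef (pv M σ v) - 1‖ ≤ ‖ef (pv M σ v)‖ + ‖(1 : ℂ)‖ := norm_sub_le _ _
          _ = 2 := by rw [ef_pv_norm, norm_one]; norm_num
    _ = 2 ^ U.card := by rw [Finset.prod_const]

open Classical in
/-- **The first order term of the state sum** -/
theorem es_SS (M : Matrix (Fin n) (Fin n) (ZMod 2)) (hM : ∀ i j, M i j = M j i)
    (σ : Fin n → Bool) : ef (SS ℤ M σ) = 1 ∧ es (SS ℤ M σ) = 3 * ∑ c, (sg (σ c) : ℂ) +
      ef (PF ℤ σ) * dd * ∑ U ∈ (Finset.univ.image M).powerset,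
        pp M σ U * ((ex M U : ℂ) - M.rank) := by
  obtain ⟨W, hW⟩ : ∃ W, W = ∑ U ∈ (Finset.univ.image M).powerset,
      (∏ v ∈ U, (pv M σ v - 1)) * dl ℤ ^ ex M U := ⟨_, rfl⟩
  have h0 := state_sum M hM σ
  rw [← hW] at h0
  have hdl : ∀ m : ℕ, ef (dl ℤ ^ m) = 1 ∧ es (dl ℤ ^ m) = m * dd :=
    fun m => ⟨ef_du (ev_dlpow m), es_du (ev_dlpow m)⟩
  have hWf : ef W = ef (∏ c, qu ℤ (σ c)) := by
    rw [hW, ← prod_pv M σ, map_sum, map_sum]
    refine Finset.sum_congr rfl fun U _ => ?_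
    rw [map_mul, (hdl _).1, mul_one]
  have hWs : es W = es (∏ c, qu ℤ (σ c)) +
      dd * ∑ U ∈ (Finset.univ.image M).powerset, pp M σ U * (ex M U : ℂ) := by
    rw [hW, ← prod_pv M σ, map_sum, map_sum, Finset.mul_sum, ← Finset.sum_add_distrib]
    refine Finset.sum_congr rfl fun U _ => ?_
    rw [es_mul, (hdl _).1, (hdl _).2, pp_eq]
    ring
  have hpp : ef (∏ c, qu ℤ (σ c)) = ∑ U ∈ (Finset.univ.image M).powerset, pp M σ U := by
    rw [← prod_pv M σ, map_sum]
    exact Finset.sum_congr rfl fun U _ => pp_eq M σ U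
  have hR : ev (PF ℤ σ * ∏ c, qu ℤ (σ c)) = du 1 (∑ c, 3 * (sg (σ c) : ℂ)) := by
    unfold PF
    rw [← Finset.prod_mul_distrib]
    exact ev_prod _ _ _ fun c _ => ev_al_qu (σ c)
  have hRf := ef_du hR
  have hRs := es_du hR
  rw [map_mul] at hRf
  rw [es_mul] at hRs
  have h1 := congrArg ef h0
  rw [map_mul, map_mul, (hdl _).1, one_mul, hWf, hRf] at h1
  have h2 := congrArg es h0
  rw [es_mul, es_mul, (hdl _).1, (hdl _).2, one_mul, h1, mul_one, hWf, hWs] at h2
  refine ⟨h1, ?_⟩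
  have h3 : ∑ U ∈ (Finset.univ.image M).powerset, pp M σ U * ((ex M U : ℂ) - M.rank) =
      ∑ U ∈ (Finset.univ.image M).powerset, pp M σ U * (ex M U : ℂ) -
        (∑ U ∈ (Finset.univ.image M).powerset, pp M σ U) * M.rank := by
    rw [Finset.sum_mul, ← Finset.sum_sub_distrib]
    exact Finset.sum_congr rfl fun U _ => by ring
  rw [h3, ← hpp]
  have h4 : (∑ c, 3 * (sg (σ c) : ℂ)) = 3 * ∑ c, (sg (σ c) : ℂ) := (Finset.mul_sum _ _ _).symm
  rw [h4] at hRs
  linear_combination h2 + hRs + (M.rank : ℂ) * dd * hRf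

open Classical in
/-- **The bound** -/
theorem sum_bound (M : Matrix (Fin n) (Fin n) (ZMod 2)) (σ : Fin n → Bool) :
    ‖∑ U ∈ (Finset.univ.image M).powerset, pp M σ U * ((ex M U : ℂ) - M.rank)‖ ≤
      M.rank * 3 ^ ((Finset.univ.image M).erase 0).card := by
  obtain ⟨Y, hY⟩ : ∃ Y, Y = (Finset.univ.image M).erase 0 := ⟨_, rfl⟩
  rw [← hY]
  have hterm : ∀ U, ‖pp M σ U * ((ex M U : ℂ) - M.rank)‖ ≤ M.rank * 2 ^ U.card := by
    intro U
    rw [norm_mul, mul_comm]
    refine mul_le_mul ?_ (pp_norm M σ U) (norm_nonneg _) (Nat.cast_nonneg _)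
    have h1 : ((ex M U : ℂ) - M.rank) = (((ex M U : ℤ) - M.rank : ℤ) : ℂ) := by push_cast; ring
    rw [h1, Complex.norm_intCast]
    have h2 := ex_le M U
    have h3 : |((ex M U : ℤ) - M.rank : ℤ)| ≤ (M.rank : ℤ) := by
      rw [abs_le]
      constructor <;> omega
    exact_mod_cast h3
  have hbd : ‖∑ U ∈ Y.powerset, pp M σ U * ((ex M U : ℂ) - M.rank)‖ ≤ M.rank * 3 ^ Y.card := by
    refine (norm_sum_le _ _).trans ?_
    refine (Finset.sum_le_sum fun U _ => hterm U).trans ?_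
    rw [← Finset.mul_sum]
    refine mul_le_mul_of_nonneg_left (le_of_eq ?_) (Nat.cast_nonneg _)
    have h1 := Finset.prod_one_add (R := ℝ) (s := Y) (f := fun _ => (2 : ℝ))
    simp only [Finset.prod_const] at h1
    rw [← h1]
    norm_num
  by_cases h0 : (0 : Fin n → ZMod 2) ∈ Finset.univ.image M
  · have hX : Finset.univ.image M = insert 0 Y := by
      rw [hY]
      exact (Finset.insert_erase h0).symm
    have h0Y : (0 : Fin n → ZMod 2) ∉ Y := by
      rw [hY]
      exact Finset.notMem_erase _ _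
    rw [hX, Finset.sum_powerset_insert h0Y, ← Finset.sum_add_distrib]
    have h1 : ∀ U ∈ Y.powerset, pp M σ U * ((ex M U : ℂ) - M.rank) +
        pp M σ (insert 0 U) * ((ex M (insert 0 U) : ℂ) - M.rank) =
        ef (pv M σ 0) * (pp M σ U * ((ex M U : ℂ) - M.rank)) := by
      intro U hU
      have h2 : (0 : Fin n → ZMod 2) ∉ U := fun h => h0Y (Finset.mem_powerset.1 hU h)
      have h3 : pp M σ (insert 0 U) = (ef (pv M σ 0) - 1) * pp M σ U := by
        unfold pp
        exact Finset.prod_insert h2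
      rw [ex_zero, h3]
      ring
    rw [Finset.sum_congr rfl h1, ← Finset.mul_sum, norm_mul, ef_pv_norm, one_mul]
    exact hbd
  · rw [hY, Finset.erase_eq_of_notMem h0] at hbd ⊢
    exact hbd

theorem ef_PF_norm (σ : Fin n → Bool) : ‖ef (PF ℤ σ)‖ = 1 := by
  unfold PF
  rw [map_prod, norm_prod]
  exact Finset.prod_eq_one fun c _ => ef_al_norm _

open Classical in
/-- **The first order term at the sixth root of unity** -/
theorem first_order (M : Matrix (Fin n) (Fin n) (ZMod 2)) (hM : ∀ i j, M i j = M j i)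
    (σ : Fin n → Bool) : ‖es (SS ℤ M σ) - 3 * ∑ c, (sg (σ c) : ℂ)‖ ≤
      2 * √3 * (M.rank * 3 ^ ((Finset.univ.image M).erase 0).card) := by
  rw [(es_SS M hM σ).2, add_sub_cancel_left, norm_mul, norm_mul, ef_PF_norm, one_mul, dd_norm]
  exact mul_le_mul_of_nonneg_left (sum_bound M σ) (by positivity)

end Pool.Agent.SLB
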