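import Mathlib
import Pool.Agent.SPT.LinD

/-!
# The coranks depend only on the shape (helper19)
-/

set_option autoImplicit false
set_option linter.unusedSectionVars false

open Submodule Module
open Pool.Agent.UNI Pool.Agent.SPT.Lin

namespace Pool.Agent.SLB

/-- `S` represents the nonzero rows -/
structure Reps {n : ℕ} (M : Matrix (Fin n) (Fin n) (ZMod 2)) (S : Finset (Fin n)) : Prop where
  ne : ∀ v ∈ S, M v ≠ 0
  inj : ∀ v ∈ S, ∀ w ∈ S, M v = M w → v = w
  cov : ∀ c, M c ≠ 0 → ∃ v ∈ S, M c = M v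

/-- the crossings with the row of `i` -/
def cls {n : ℕ} (M : Matrix (Fin n) (Fin n) (ZMod 2)) (i : Fin n) : Finset (Fin n) :=
  Finset.univ.filter fun c => M c = M i

theorem mem_cls {n : ℕ} {M : Matrix (Fin n) (Fin n) (ZMod 2)} {i c : Fin n} :
    c ∈ cls M i ↔ M c = M i := by
  unfold cls
  rw [Finset.mem_filter]
  exact ⟨fun h => h.2, fun h => ⟨Finset.mem_univ c, h⟩⟩

section

variable {n : ℕ} {M : Matrix (Fin n) (Fin n) (ZMod 2)} {S V : Finset (Fin n)}

theorem row_sum (hM : ∀ i j, M i j = M j i) (hS : Reps M S) (u : Fin n) (x : Fin n → ZMod 2) :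
    M.mulVec x u = ∑ v ∈ S, M u v * ∑ c ∈ cls M v, x c := by
  have h1 : M.mulVec x u = ∑ c, M u c * x c := rfl
  have h2 : ∀ c, M u c * x c = ∑ v ∈ S, if M c = M v then M u v * x c else 0 := by
    intro c
    by_cases hc : M c = 0
    · rw [hM u c, hc, Pi.zero_apply, zero_mul]
      symm
      refine Finset.sum_eq_zero fun v hv => ?_
      rw [if_neg]
      intro h
      exact hS.ne v hv h.symm
    · obtain ⟨w, hw, hcw⟩ := hS.cov c hc
      rw [Finset.sum_eq_single w]
      · rw [if_pos hcw, hM u c, hcw, hM w u]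
      · intro v hv hvw
        rw [if_neg]
        intro h
        exact hvw (hS.inj v hv w hw (h.symm.trans hcw))
      · intro h
        exact absurd hw h
  rw [h1, Finset.sum_congr rfl fun c _ => h2 c, Finset.sum_comm]
  refine Finset.sum_congr rfl fun v _ => ?_
  rw [Finset.mul_sum]
  unfold cls
  rw [Finset.sum_filter]

theorem mul_row {c v : Fin n} (h : M c = M v) (x : Fin n → ZMod 2) :
    M.mulVec x c = M.mulVec x v := by
  show M c ⬝ᵥ x = M v ⬝ᵥ x
  rw [h]

theorem mul_zero_row {c : Fin n} (h : M c = 0) (x : Fin n → ZMod 2) : M.mulVec x c = 0 := by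
  show M c ⬝ᵥ x = 0
  rw [h, zero_dotProduct]

theorem ker_off {x : Fin n → ZMod 2} (hx : x ∈ LinearMap.ker (MW M V).mulVecLin) {c : Fin n}
    (hc : c ∉ V) : x c = M.mulVec x c := by
  have hz : ∀ a b : ZMod 2, a + b = 0 → b = a := by decide
  have h := (mem_ker_MW V x).1 hx c
  rw [if_neg hc] at h
  exact hz _ _ h

theorem ker_on {x : Fin n → ZMod 2} (hx : x ∈ LinearMap.ker (MW M V).mulVecLin) {c : Fin n}
    (hc : c ∈ V) : M.mulVec x c = 0 := by
  have h := (mem_ker_MW V x).1 hx c
  rw [if_pos hc, add_zero] at h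
  exact h

theorem class_sum (hS : Reps M S) (hV : V ⊆ S) {x : Fin n → ZMod 2}
    (hx : x ∈ LinearMap.ker (MW M V).mulVecLin) {v : Fin n} (hv : v ∈ S) :
    ∑ c ∈ cls M v, x c = if v ∈ V then x v else ((cls M v).card : ZMod 2) * x v := by
  have hoff : ∀ c, M c = M v → c ≠ v → c ∉ V :=
    fun c h1 h2 h3 => h2 (hS.inj c (hV h3) v hv h1)
  by_cases hvV : v ∈ V
  · rw [if_pos hvV, Finset.sum_eq_single v]
    · intro c hc hcv
      have h1 := mem_cls.1 hc
      rw [ker_off hx (hoff c h1 hcv), mul_row h1, ker_on hx hvV]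
    · intro h
      exact absurd (mem_cls.2 rfl) h
  · rw [if_neg hvV]
    have h2 : ∀ c ∈ cls M v, x c = x v := by
      intro c hc
      have h1 := mem_cls.1 hc
      have h3 : c ∉ V := by
        by_cases hcv : c = v
        · rw [hcv]
          exact hvV
        · exact hoff c h1 hcv
      rw [ker_off hx h3, mul_row h1, ← ker_off hx hvV]
    rw [Finset.sum_congr rfl h2, Finset.sum_const, nsmul_eq_mul]

end

/-- two matrices with the same reduced matrix and the same parities of the classes -/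
structure Same {n n' : ℕ} (M : Matrix (Fin n) (Fin n) (ZMod 2)) (S : Finset (Fin n))
    (M' : Matrix (Fin n') (Fin n') (ZMod 2)) (S' : Finset (Fin n')) (φ : Fin n → Fin n')
    (ψ : Fin n' → Fin n) : Prop where
  map : ∀ i ∈ S, φ i ∈ S' ∧ ψ (φ i) = i
  inv : ∀ j ∈ S', ψ j ∈ S ∧ φ (ψ j) = j
  mat : ∀ i ∈ S, ∀ j ∈ S, M i j = M' (φ i) (φ j)
  par : ∀ i ∈ S, ((cls M i).card : ZMod 2) = ((cls M' (φ i)).card : ZMod 2)

theorem Same.symm {n n' : ℕ} {M : Matrix (Fin n) (Fin n) (ZMod 2)} {S : Finset (Fin n)}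
    {M' : Matrix (Fin n') (Fin n') (ZMod 2)} {S' : Finset (Fin n')} {φ : Fin n → Fin n'}
    {ψ : Fin n' → Fin n} (h : Same M S M' S' φ ψ) : Same M' S' M S ψ φ where
  map := h.inv
  inv := h.map
  mat := fun i hi j hj => by
    rw [h.mat _ (h.inv i hi).1 _ (h.inv j hj).1, (h.inv i hi).2, (h.inv j hj).2]
  par := fun i hi => by
    rw [h.par _ (h.inv i hi).1, (h.inv i hi).2]

theorem kap_le_shape {n n' : ℕ} {M : Matrix (Fin n) (Fin n) (ZMod 2)} {S : Finset (Fin n)}
    {M' : Matrix (Fin n') (Fin n') (ZMod 2)} {S' : Finset (Fin n')} {φ : Fin n → Fin n'}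
    {ψ : Fin n' → Fin n} (h : Same M S M' S' φ ψ) (hM : ∀ i j, M i j = M j i)
    (hM' : ∀ i j, M' i j = M' j i) (hS : Reps M S) (hS' : Reps M' S') {V : Finset (Fin n)}
    (hV : V ⊆ S) : kap M V ≤ kap M' (V.image φ) := by
  obtain ⟨V', hV'⟩ : ∃ V', V' = V.image φ := ⟨_, rfl⟩
  rw [← hV']
  have hVS : V' ⊆ S' := by
    intro c hc
    rw [hV'] at hc
    obtain ⟨i, hi, rfl⟩ := Finset.mem_image.1 hc
    exact (h.map i (hV hi)).1
  have hmem : ∀ u ∈ S', (u ∈ V' ↔ ψ u ∈ V) := by
    intro u hu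
    rw [hV', Finset.mem_image]
    constructor
    · rintro ⟨i, hi, rfl⟩
      rw [(h.map i (hV hi)).2]
      exact hi
    · intro h1
      exact ⟨ψ u, h1, (h.inv u hu).2⟩
  obtain ⟨r, hr⟩ : ∃ r : Fin n' → Fin n', ∀ c, M' c ≠ 0 → r c ∈ S' ∧ M' c = M' (r c) := by
    classical
    refine ⟨fun c => if h : M' c ≠ 0 then (hS'.cov c h).choose else c, fun c hc => ?_⟩
    have h1 := (hS'.cov c hc).choose_spec
    beta_reduce
    rw [dif_pos hc]
    exact h1
  have hrS : ∀ v ∈ S', ∀ c, M' c = M' v → r c = v := by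
    intro v hv c hc
    have h1 := hr c (by rw [hc]; exact hS'.ne v hv)
    exact hS'.inj _ h1.1 _ hv (h1.2.symm.trans hc)
  obtain ⟨L, hL⟩ : ∃ L : (Fin n → ZMod 2) →ₗ[ZMod 2] (Fin n' → ZMod 2), ∀ x c,
      L x c = if c ∈ V' then x (ψ c) else if M' c = 0 then 0 else
        if r c ∈ V' then 0 else x (ψ (r c)) :=
    ⟨{ toFun := fun x c => if c ∈ V' then x (ψ c) else if M' c = 0 then 0 else
        if r c ∈ V' then 0 else x (ψ (r c))
       map_add' := fun x y => by
        funext c
        simp only [Pi.add_apply]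
        split_ifs <;> simp
       map_smul' := fun a x => by
        funext c
        simp only [Pi.smul_apply, RingHom.id_apply]
        split_ifs <;> simp }, fun _ _ => rfl⟩
  have hoff : ∀ v ∈ S', ∀ c, M' c = M' v → c ≠ v → c ∉ V' :=
    fun v hv c h1 h2 h3 => h2 (hS'.inj c (hVS h3) v hv h1)
  have hcl : ∀ x, ∀ v ∈ S', ∑ c ∈ cls M' v, L x c =
      if v ∈ V' then x (ψ v) else ((cls M' v).card : ZMod 2) * x (ψ v) := by
    intro x v hv
    by_cases hvV : v ∈ V'
    · rw [if_pos hvV, Finset.sum_eq_single v]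
      · rw [hL, if_pos hvV]
      · intro c hc hcv
        have h1 := mem_cls.1 hc
        rw [hL, if_neg (hoff v hv c h1 hcv), if_neg (by rw [h1]; exact hS'.ne v hv),
          if_pos (by rw [hrS v hv c h1]; exact hvV)]
      · intro h
        exact absurd (mem_cls.2 rfl) h
    · rw [if_neg hvV]
      have h2 : ∀ c ∈ cls M' v, L x c = x (ψ v) := by
        intro c hc
        have h1 := mem_cls.1 hc
        have h3 : c ∉ V' := by
          by_cases hcv : c = v
          · rw [hcv]
            exact hvV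
          · exact hoff v hv c h1 hcv
        rw [hL, if_neg h3, if_neg (by rw [h1]; exact hS'.ne v hv), hrS v hv c h1, if_neg hvV]
      rw [Finset.sum_congr rfl h2, Finset.sum_const, nsmul_eq_mul]
  have hmul : ∀ x ∈ LinearMap.ker (MW M V).mulVecLin, ∀ u ∈ S',
      M'.mulVec (L x) u = M.mulVec x (ψ u) := by
    intro x hx u hu
    rw [row_sum hM' hS' u (L x), row_sum hM hS (ψ u) x]
    refine Finset.sum_bij (fun v _ => ψ v) (fun v hv => (h.inv v hv).1) ?_ ?_ ?_
    · intro v hv w hw hvw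
      rw [← (h.inv v hv).2, ← (h.inv w hw).2]
      exact congrArg φ hvw
    · intro i hi
      exact ⟨φ i, (h.map i hi).1, (h.map i hi).2⟩
    · intro v hv
      have h1 := h.inv v hv
      rw [h.mat _ (h.inv u hu).1 _ h1.1, (h.inv u hu).2, h1.2, hcl x v hv,
        class_sum hS hV hx h1.1, h.par _ h1.1, h1.2]
      by_cases hvV : v ∈ V'
      · rw [if_pos hvV, if_pos ((hmem v hv).1 hvV)]
      · rw [if_neg hvV, if_neg fun h2 => hvV ((hmem v hv).2 h2)]
  have hker : ∀ x ∈ LinearMap.ker (MW M V).mulVecLin, L x ∈ LinearMap.ker (MW M' V').mulVecLin := by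
    intro x hx
    have hz : ∀ a : ZMod 2, a + a = 0 := by decide
    rw [mem_ker_MW]
    intro c
    by_cases hcV : c ∈ V'
    · rw [if_pos hcV, add_zero, hmul x hx c (hVS hcV)]
      exact ker_on hx ((hmem c (hVS hcV)).1 hcV)
    · rw [if_neg hcV]
      by_cases hc0 : M' c = 0
      · rw [mul_zero_row hc0, hL, if_neg hcV, if_pos hc0, add_zero]
      · obtain ⟨h1, h2⟩ := hr c hc0
        rw [mul_row h2, hmul x hx _ h1, hL, if_neg hcV, if_neg hc0]
        by_cases h3 : r c ∈ V'
        · rw [if_pos h3, add_zero]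
          exact ker_on hx ((hmem _ h1).1 h3)
        · rw [if_neg h3, ← ker_off hx fun h4 => h3 ((hmem _ h1).2 h4)]
          exact hz _
  have hinj : Function.Injective ((L.comp (LinearMap.ker (MW M V).mulVecLin).subtype).codRestrict
      (LinearMap.ker (MW M' V').mulVecLin) fun x => hker x.1 x.2) := by
    rw [← LinearMap.ker_eq_bot, LinearMap.ker_eq_bot']
    intro x hx
    have hx1 : ∀ c, L x.1 c = 0 := by
      intro c
      have h1 := congrArg Subtype.val hx
      exact congrFun h1 c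
    have hxS : ∀ u ∈ S, x.1 u = 0 := by
      intro u hu
      have h1 := hx1 (φ u)
      obtain ⟨h2, h3⟩ := h.map u hu
      rw [hL, hrS _ h2 _ rfl, h3] at h1
      by_cases h4 : φ u ∈ V'
      · rw [if_pos h4] at h1
        exact h1
      · rw [if_neg h4, if_neg (hS'.ne _ h2), if_neg h4] at h1
        exact h1
    apply Subtype.ext
    funext c
    show x.1 c = 0
    by_cases hcV : c ∈ V
    · exact hxS c (hV hcV)
    · rw [ker_off x.2 hcV]
      by_cases hc0 : M c = 0
      · exact mul_zero_row hc0 _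
      · obtain ⟨v, hv, hcv⟩ := hS.cov c hc0
        rw [mul_row hcv]
        by_cases hvV : v ∈ V
        · exact ker_on x.2 hvV
        · rw [← ker_off x.2 hvV]
          exact hxS v hv
  exact LinearMap.finrank_le_finrank_of_injective hinj

/-- **The coranks depend only on the shape** -/
theorem kap_shape {n n' : ℕ} {M : Matrix (Fin n) (Fin n) (ZMod 2)} {S : Finset (Fin n)}
    {M' : Matrix (Fin n') (Fin n') (ZMod 2)} {S' : Finset (Fin n')} {φ : Fin n → Fin n'}
    {ψ : Fin n' → Fin n} (h : Same M S M' S' φ ψ) (hM : ∀ i j, M i j = M j i)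
    (hM' : ∀ i j, M' i j = M' j i) (hS : Reps M S) (hS' : Reps M' S') {V : Finset (Fin n)}
    (hV : V ⊆ S) : kap M V = kap M' (V.image φ) := by
  have h1 := kap_le_shape h hM hM' hS hS' hV
  have hVS : V.image φ ⊆ S' := by
    intro c hc
    obtain ⟨i, hi, rfl⟩ := Finset.mem_image.1 hc
    exact (h.map i (hV hi)).1
  have h2 := kap_le_shape h.symm hM' hM hS' hS hVS
  have h3 : (V.image φ).image ψ = V := by
    rw [Finset.image_image]
    ext i
    rw [Finset.mem_image]
    constructor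
    · rintro ⟨j, hj, rfl⟩
      rw [Function.comp_apply, (h.map j (hV hj)).2]
      exact hj
    · intro hi
      exact ⟨i, hi, (h.map i (hV hi)).2⟩
  rw [h3] at h2
  exact le_antisymm h1 h2

end Pool.Agent.SLB
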