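import Mathlib
import Pool.Agent.SLB.Core

/-!
# The first order term at the sixth root of unity: classes with a twist number divisible by six
(helper19)
-/

set_option autoImplicit false
set_option linter.unusedSectionVars false

open Module LaurentPolynomial Pool.Agent.SPT.Lin Pool.Agent.UNI

namespace Pool.Agent.SLB

variable {n : ℕ}

open Classical in
/-- the sum of the signs of the crossings with the row `v` -/
noncomputable def tt (M : Matrix (Fin n) (Fin n) (ZMod 2)) (σ : Fin n → Bool)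
    (v : Fin n → ZMod 2) : ℤ := ∑ c ∈ Finset.univ.filter (fun c => M c = v), sg (σ c)

theorem A0_six : A0 ^ (6 : ℕ) = 1 := by
  have h : A0 ^ 6 = (A0 ^ 3) ^ 2 := by rw [← pow_mul]
  rw [h, A0_cube]
  norm_num

theorem ef_qu (b : Bool) : ef (qu ℤ b) = A0 ^ sg b := by
  unfold qu sg
  cases b
  · simp only [Bool.false_eq_true, if_false]
    rw [map_neg, ef_du (ev_T (-4))]
    have h : A0 ^ (-4 : ℤ) = A0 ^ (3 * (-1) : ℤ) * A0 ^ (-1 : ℤ) := by
      rw [← zpow_add₀ A0_ne]
      norm_num
    rw [h, A0_zpow3]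
    norm_num
  · simp only [if_true]
    rw [map_neg, ef_du (ev_T 4)]
    have h : A0 ^ (4 : ℤ) = A0 ^ (3 * 1 : ℤ) * A0 ^ (1 : ℤ) := by
      rw [← zpow_add₀ A0_ne]
      norm_num
    rw [h, A0_zpow3]
    norm_num

theorem A0_prod {ι : Type} [DecidableEq ι] (s : Finset ι) (f : ι → ℤ) :
    ∏ i ∈ s, A0 ^ f i = A0 ^ ∑ i ∈ s, f i := by
  induction s using Finset.induction_on with
  | empty => rw [Finset.prod_empty, Finset.sum_empty, zpow_zero]
  | insert i s hi ih => rw [Finset.prod_insert hi, Finset.sum_insert hi, ih, zpow_add₀ A0_ne]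

open Classical in
theorem ef_pv (M : Matrix (Fin n) (Fin n) (ZMod 2)) (σ : Fin n → Bool) (v : Fin n → ZMod 2) :
    ef (pv M σ v) = A0 ^ tt M σ v := by
  unfold pv pw tt
  rw [map_prod, ← A0_prod]
  refine Finset.prod_congr ?_ fun c _ => ef_qu _
  ext c
  simp only [Finset.mem_filter]

theorem ef_pv_one (M : Matrix (Fin n) (Fin n) (ZMod 2)) (σ : Fin n → Bool)
    (v : Fin n → ZMod 2) (h : (6 : ℤ) ∣ tt M σ v) : ef (pv M σ v) = 1 := by
  obtain ⟨k, hk⟩ := h
  rw [ef_pv, hk, zpow_mul]
  have h1 : A0 ^ (6 : ℤ) = 1 := by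
    rw [← A0_six]
    norm_cast
  rw [h1, one_zpow]

theorem pp_zero (M : Matrix (Fin n) (Fin n) (ZMod 2)) (σ : Fin n → Bool)
    (U : Finset (Fin n → ZMod 2)) (v : Fin n → ZMod 2) (hv : v ∈ U)
    (h : (6 : ℤ) ∣ tt M σ v) : pp M σ U = 0 := by
  unfold pp
  refine Finset.prod_eq_zero hv ?_
  rw [ef_pv_one M σ v h, sub_self]

open Classical in
/-- the nonzero rows with a twist number which is not divisible by six -/
noncomputable def Y6 (M : Matrix (Fin n) (Fin n) (ZMod 2)) (σ : Fin n → Bool) :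
    Finset (Fin n → ZMod 2) :=
  ((Finset.univ.image M).erase 0).filter fun v => ¬ (6 : ℤ) ∣ tt M σ v

theorem card_even (M : Matrix (Fin n) (Fin n) (ZMod 2)) (σ : Fin n → Bool)
    (v : Fin n → ZMod 2) [DecidablePred fun c => M c = v] (h : (6 : ℤ) ∣ tt M σ v) :
    ((Finset.univ.filter fun c => M c = v).card : ZMod 2) = 0 := by
  classical
  have h1 : ((tt M σ v : ℤ) : ZMod 2) = ((Finset.univ.filter fun c => M c = v).card : ZMod 2) := by
    unfold tt
    rw [Int.cast_sum, Finset.card_eq_sum_ones, Nat.cast_sum]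
    refine Finset.sum_congr ?_ fun c _ => ?_
    · ext c
      simp only [Finset.mem_filter]
    · unfold sg
      cases σ c
      · simp only [Bool.false_eq_true, if_false]
        decide
      · simp only [if_true]
        decide
  rw [← h1]
  obtain ⟨k, hk⟩ := h
  rw [hk, Int.cast_mul]
  have h2 : ((6 : ℤ) : ZMod 2) = 0 := by decide
  rw [h2, zero_mul]

open Classical in
/-- **The coranks** -/
theorem kap_le (M : Matrix (Fin n) (Fin n) (ZMod 2)) (hM : ∀ i j, M i j = M j i)
    (σ : Fin n → Bool) (W : Finset (Fin n)) (hinj : Set.InjOn M (W : Set (Fin n)))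
    (hW : W.image M ⊆ Y6 M σ) : kap M W ≤ (Y6 M σ).card := by
  obtain ⟨φ, hφ⟩ : ∃ φ : LinearMap.ker (MW M W).mulVecLin →ₗ[ZMod 2] (↥(Y6 M σ) → ZMod 2),
      ∀ x v, φ x v = ∑ c ∈ Finset.univ.filter (fun c => M c = v.1), x.1 c :=
    ⟨{ toFun := fun x v => ∑ c ∈ Finset.univ.filter (fun c => M c = v.1), x.1 c
       map_add' := fun x y => by
        funext v
        exact Finset.sum_add_distrib
       map_smul' := fun r x => by
        funext v
        exact (Finset.mul_sum _ _ _).symm }, fun _ _ => rfl⟩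
  have hker : Function.Injective φ := by
    rw [← LinearMap.ker_eq_bot, LinearMap.ker_eq_bot']
    intro x hx
    have hx0 : ∀ v ∈ Y6 M σ, ∑ c ∈ Finset.univ.filter (fun c => M c = v), x.1 c = 0 := by
      intro v hv
      have h1 := congrFun hx ⟨v, hv⟩
      rw [hφ] at h1
      exact h1
    have hk := (mem_ker_MW W x.1).1 x.2
    have hz : ∀ a b : ZMod 2, a + b = 0 → b = a := by decide
    have hoff : ∀ c, c ∉ W → x.1 c = M.mulVec x.1 c := by
      intro c hc
      have h1 := hk c
      rw [if_neg hc] at h1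
      exact hz _ _ h1
    have hrow : ∀ c d, M c = M d → M.mulVec x.1 c = M.mulVec x.1 d := by
      intro c d h
      show M c ⬝ᵥ x.1 = M d ⬝ᵥ x.1
      rw [h]
    -- the sums over all classes
    have hall : ∀ v ∈ Finset.univ.image M, v ≠ 0 →
        ∑ c ∈ Finset.univ.filter (fun c => M c = v), x.1 c = 0 := by
      intro v hv hv0
      by_cases h6 : v ∈ Y6 M σ
      · exact hx0 v h6
      · have h7 : (6 : ℤ) ∣ tt M σ v := by
          by_contra h8
          exact h6 (Finset.mem_filter.2 ⟨Finset.mem_erase.2 ⟨hv0, hv⟩, h8⟩)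
        obtain ⟨d, -, hd⟩ := Finset.mem_image.1 hv
        have h8 : ∀ c ∈ Finset.univ.filter (fun c => M c = v), x.1 c = M.mulVec x.1 d := by
          intro c hc
          rw [Finset.mem_filter] at hc
          have hcW : c ∉ W := by
            intro h9
            exact h6 (hW (Finset.mem_image.2 ⟨c, h9, hc.2⟩))
          rw [hoff c hcW]
          exact hrow c d (hc.2.trans hd.symm)
        rw [Finset.sum_congr rfl h8, Finset.sum_const, nsmul_eq_mul, card_even M σ v h7, zero_mul]
    have hMx : ∀ d, M.mulVec x.1 d = 0 := by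
      intro d
      have h1 : M.mulVec x.1 d = ∑ c, M d c * x.1 c := rfl
      rw [h1, ← Finset.sum_fiberwise_of_maps_to (s := Finset.univ) (t := Finset.univ.image M)
        (g := fun c => M c) (fun c _ => Finset.mem_image_of_mem M (Finset.mem_univ c))]
      refine Finset.sum_eq_zero fun v hv => ?_
      have h2 : ∀ c ∈ Finset.univ.filter (fun c => M c = v), M d c * x.1 c = v d * x.1 c := by
        intro c hc
        rw [hM d c, (Finset.mem_filter.1 hc).2]
      have h3 : ∑ c ∈ Finset.univ.filter (fun c => M c = v), M d c * x.1 c = 0 := by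
        rw [Finset.sum_congr rfl h2, ← Finset.mul_sum]
        by_cases hv0 : v = 0
        · rw [hv0]
          exact zero_mul _
        · rw [hall v hv hv0, mul_zero]
      refine Eq.trans (Finset.sum_congr ?_ fun _ _ => rfl) h3
      ext c
      simp only [Finset.mem_filter]
    apply Subtype.ext
    funext c
    by_cases hc : c ∈ W
    · have h1 : M c ∈ Y6 M σ := hW (Finset.mem_image_of_mem M hc)
      have h2 := hx0 _ h1
      rw [Finset.sum_eq_single c] at h2
      · exact h2
      · intro d hd hdc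
        rw [Finset.mem_filter] at hd
        by_cases hdW : d ∈ W
        · exact absurd (hinj hdW hc hd.2) hdc
        · rw [hoff d hdW, hMx d]
      · intro h
        exact absurd (Finset.mem_filter.2 ⟨Finset.mem_univ c, (rfl : M c = M c)⟩) h
    · show x.1 c = 0
      rw [hoff c hc, hMx c]
  have h1 := LinearMap.finrank_le_finrank_of_injective hker
  rw [Module.finrank_fintype_fun_eq_card, Fintype.card_coe] at h1
  exact h1

open Classical in
theorem ex_bound (M : Matrix (Fin n) (Fin n) (ZMod 2)) (hM : ∀ i j, M i j = M j i)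
    (σ : Fin n → Bool) (U : Finset (Fin n → ZMod 2)) (hU : U ⊆ Y6 M σ) :
    |(ex M U : ℤ) - M.rank| ≤ (Y6 M σ).card := by
  have hsurj : (Set.univ : Set (Fin n)).SurjOn M (U : Set (Fin n → ZMod 2)) := by
    intro v hv
    have h1 := hU (Finset.mem_coe.1 hv)
    unfold Y6 at h1
    rw [Finset.mem_filter, Finset.mem_erase] at h1
    obtain ⟨c, -, hc⟩ := Finset.mem_image.1 h1.1.2
    exact ⟨c, Set.mem_univ c, hc⟩
  obtain ⟨W, -, hinj, himg⟩ := Finset.exists_subset_injOn_image_eq_of_surjOn _ _ hsurj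
  have h1 := kap_ex M hM W
  have hWU : W.image M = U := himg
  have h2 := kap_le M hM σ W hinj (hWU ▸ hU)
  have h3 : W.card = U.card := by
    rw [← hWU]
    exact (Finset.card_image_of_injOn hinj).symm
  have h4 := Finset.card_le_card hU
  rw [hWU] at h1
  rw [abs_le]
  constructor <;> omega

open Classical in
/-- **The bound** -/
theorem sum_bound6 (M : Matrix (Fin n) (Fin n) (ZMod 2)) (hM : ∀ i j, M i j = M j i)
    (σ : Fin n → Bool) :
    ‖∑ U ∈ (Finset.univ.image M).powerset, pp M σ U * ((ex M U : ℂ) - M.rank)‖ ≤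
      (Y6 M σ).card * 3 ^ (Y6 M σ).card := by
  obtain ⟨k, hk⟩ : ∃ k, k = (Y6 M σ).card := ⟨_, rfl⟩
  rw [← hk]
  obtain ⟨Y, hY⟩ : ∃ Y, Y = (Finset.univ.image M).erase 0 := ⟨_, rfl⟩
  have hterm : ∀ U ⊆ Y6 M σ, ‖pp M σ U * ((ex M U : ℂ) - M.rank)‖ ≤ k * 2 ^ U.card := by
    intro U hU
    rw [norm_mul, mul_comm]
    refine mul_le_mul ?_ (pp_norm M σ U) (norm_nonneg _) (Nat.cast_nonneg _)
    have h1 : ((ex M U : ℂ) - M.rank) = (((ex M U : ℤ) - M.rank : ℤ) : ℂ) := by push_cast; ring
    rw [h1, Complex.norm_intCast]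
    have h2 := ex_bound M hM σ U hU
    rw [← hk] at h2
    exact_mod_cast h2
  have hY6 : Y6 M σ ⊆ Y := by
    rw [hY]
    exact Finset.filter_subset _ _
  have hbd : ‖∑ U ∈ Y.powerset, pp M σ U * ((ex M U : ℂ) - M.rank)‖ ≤ k * 3 ^ k := by
    have h1 : ∑ U ∈ Y.powerset, pp M σ U * ((ex M U : ℂ) - M.rank) =
        ∑ U ∈ (Y6 M σ).powerset, pp M σ U * ((ex M U : ℂ) - M.rank) := by
      symm
      refine Finset.sum_subset (Finset.powerset_mono.2 hY6) fun U hU hU6 => ?_
      rw [Finset.mem_powerset] at hU hU6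
      obtain ⟨v, hv, hv6⟩ := Finset.not_subset.1 hU6
      have h2 : (6 : ℤ) ∣ tt M σ v := by
        by_contra h3
        refine hv6 (Finset.mem_filter.2 ⟨?_, h3⟩)
        rw [← hY]
        exact hU hv
      rw [pp_zero M σ U v hv h2, zero_mul]
    rw [h1]
    refine (norm_sum_le _ _).trans ?_
    refine (Finset.sum_le_sum fun U hU => hterm U (Finset.mem_powerset.1 hU)).trans ?_
    rw [← Finset.mul_sum]
    refine mul_le_mul_of_nonneg_left (le_of_eq ?_) (Nat.cast_nonneg _)
    have h2 := Finset.prod_one_add (R := ℝ) (s := Y6 M σ) (f := fun _ => (2 : ℝ))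
    simp only [Finset.prod_const] at h2
    rw [← h2, ← hk]
    norm_num
  by_cases h0 : (0 : Fin n → ZMod 2) ∈ Finset.univ.image M
  · have hX : Finset.univ.image M = insert 0 Y := by
      rw [hY]
      exact (Finset.insert_erase h0).symm
    have h0Y : (0 : Fin n → ZMod 2) ∉ Y := by
      rw [hY]
      exact Finset.notMem_erase _ _
    rw [hX, Finset.sum_powerset_insert h0Y, ← Finset.sum_add_distrib]
    have h1 : ∀ U ∈ Y.powerset, pp M σ U * ((ex M U : ℂ) - M.rank) +
        pp M σ (insert 0 U) * ((ex M (insert 0 U) : ℂ) - M.rank) =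
        ef (pv M σ 0) * (pp M σ U * ((ex M U : ℂ) - M.rank)) := by
      intro U hU
      have h2 : (0 : Fin n → ZMod 2) ∉ U := fun h => h0Y (Finset.mem_powerset.1 hU h)
      have h3 : pp M σ (insert 0 U) = (ef (pv M σ 0) - 1) * pp M σ U := by
        unfold pp
        exact Finset.prod_insert h2
      rw [ex_zero, h3]
      ring
    rw [Finset.sum_congr rfl h1, ← Finset.mul_sum, norm_mul, ef_pv_norm, one_mul]
    exact hbd
  · rw [hY, Finset.erase_eq_of_notMem h0] at hbd
    exact hbd

open Classical in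
/-- **The first order term at the sixth root of unity** -/
theorem first_order6 (M : Matrix (Fin n) (Fin n) (ZMod 2)) (hM : ∀ i j, M i j = M j i)
    (σ : Fin n → Bool) : ‖es (SS ℤ M σ) - 3 * ∑ c, (sg (σ c) : ℂ)‖ ≤
      2 * √3 * ((Y6 M σ).card * 3 ^ (Y6 M σ).card) := by
  rw [(es_SS M hM σ).2, add_sub_cancel_left, norm_mul, norm_mul, ef_PF_norm, one_mul, dd_norm]
  exact mul_le_mul_of_nonneg_left (sum_bound6 M hM σ) (by positivity)

end Pool.Agent.SLB
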