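import Mathlib
import Pool.Agent.SLB.Six
import Pool.Agent.SLB.Shape

/-!
# The first order term depends only on the shape and the residues modulo six (helper19)
-/

set_option autoImplicit false
set_option linter.unusedSectionVars false

open Submodule Module LaurentPolynomial
open Pool.Agent.UNI Pool.Agent.SPT.Lin

namespace Pool.Agent.SLB

/-- the sum over the sets of classes -/
noncomputable def FF {α : Type} [DecidableEq α] (S : Finset α) (t : α → ℤ) (κ : Finset α → ℂ) : ℂ :=
  ∑ V ∈ S.powerset, (∏ i ∈ V, (1 - A0 ^ (-t i))) * (∏ i ∈ S \ V, A0 ^ (-t i)) * κ V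

theorem FF_congr {α : Type} [DecidableEq α] (S : Finset α) (t t' : α → ℤ) (κ κ' : Finset α → ℂ)
    (h : ∀ i ∈ S, (6 : ℤ) ∣ t i - t' i) (hκ : ∀ V ⊆ S, κ V = κ' V) :
    FF S t κ = FF S t' κ' := by
  have h1 : A0 ^ (6 : ℤ) = 1 := by
    rw [← A0_six]
    norm_cast
  have h2 : ∀ i ∈ S, A0 ^ (-t i) = A0 ^ (-t' i) := by
    intro i hi
    obtain ⟨k, hk⟩ := h i hi
    have h3 : -t i = -t' i + 6 * (-k) := by linear_combination -hk
    rw [h3, zpow_add₀ A0_ne, zpow_mul, h1, one_zpow, mul_one]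
  unfold FF
  refine Finset.sum_congr rfl fun V hV => ?_
  have hV' := Finset.mem_powerset.1 hV
  rw [hκ V hV', Finset.prod_congr rfl fun i hi => by rw [h2 i (hV' hi)],
    Finset.prod_congr (s₁ := S \ V) rfl fun i hi => h2 i (Finset.mem_sdiff.1 hi).1]

theorem FF_image {α β : Type} [DecidableEq α] [DecidableEq β] (S : Finset α) (f : α → β)
    (hf : Set.InjOn f (S : Set α)) (t : β → ℤ) (κ : Finset β → ℂ) :
    FF (S.image f) t κ = FF S (fun i => t (f i)) fun V => κ (V.image f) := by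
  unfold FF
  have h1 : (S.image f).powerset = S.powerset.image fun V => V.image f := by
    ext U
    rw [Finset.mem_powerset, Finset.subset_image_iff, Finset.mem_image]
    constructor
    · rintro ⟨V, hV, h⟩
      exact ⟨V, Finset.mem_powerset.2 hV, h⟩
    · rintro ⟨V, hV, h⟩
      exact ⟨V, Finset.mem_powerset.1 hV, h⟩
  have h2 : ∀ V ∈ S.powerset, ∀ W ∈ S.powerset, V.image f = W.image f → V ⊆ W := by
    intro V hV W hW h i hi
    rw [Finset.mem_powerset] at hV hW
    have h3 : f i ∈ W.image f := by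
      rw [← h]
      exact Finset.mem_image_of_mem f hi
    obtain ⟨j, hj, hji⟩ := Finset.mem_image.1 h3
    rw [← hf (hW hj) (hV hi) hji]
    exact hj
  rw [h1, Finset.sum_image fun V hV W hW h =>
    Finset.Subset.antisymm (h2 V hV W hW h) (h2 W hW V hV h.symm)]
  refine Finset.sum_congr rfl fun V hV => ?_
  rw [Finset.mem_powerset] at hV
  have h3 : S.image f \ V.image f = (S \ V).image f := by
    ext x
    rw [Finset.mem_sdiff, Finset.mem_image, Finset.mem_image, Finset.mem_image]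
    constructor
    · rintro ⟨⟨i, hi, rfl⟩, h4⟩
      exact ⟨i, Finset.mem_sdiff.2 ⟨hi, fun h5 => h4 ⟨i, h5, rfl⟩⟩, rfl⟩
    · rintro ⟨i, hi, rfl⟩
      rw [Finset.mem_sdiff] at hi
      refine ⟨⟨i, hi.1, rfl⟩, ?_⟩
      rintro ⟨j, hj, hji⟩
      rw [hf (hV hj) hi.1 hji] at hj
      exact hi.2 hj
  rw [h3, Finset.prod_image fun i hi j hj h => hf (hV hi) (hV hj) h,
    Finset.prod_image fun i hi j hj h => hf (Finset.sdiff_subset hi) (Finset.sdiff_subset hj) h]

variable {n : ℕ}

open Classical in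
/-- the product of all the weights -/
theorem ef_PF_pv (M : Matrix (Fin n) (Fin n) (ZMod 2)) (σ : Fin n → Bool) :
    ef (PF ℤ σ) * ∏ v ∈ Finset.univ.image M, ef (pv M σ v) = 1 := by
  have hR : ev (PF ℤ σ * ∏ c, qu ℤ (σ c)) = du 1 (∑ c, 3 * (sg (σ c) : ℂ)) := by
    unfold PF
    rw [← Finset.prod_mul_distrib]
    exact ev_prod _ _ _ fun c _ => ev_al_qu (σ c)
  have hRf := ef_du hR
  rw [map_mul, ← prod_pv M σ, ← Finset.prod_one_add, map_prod] at hRf
  rw [← hRf]
  congr 1
  refine Finset.prod_congr rfl fun v _ => ?_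
  rw [add_sub_cancel]

open Classical in
/-- the sum over the nonzero rows -/
theorem sum_Y (M : Matrix (Fin n) (Fin n) (ZMod 2)) (σ : Fin n → Bool)
    (f : Finset (Fin n → ZMod 2) → ℂ) (hf : ∀ U, f (insert 0 U) = f U) :
    ef (PF ℤ σ) * ∑ U ∈ (Finset.univ.image M).powerset, pp M σ U * f U =
      FF ((Finset.univ.image M).erase 0) (tt M σ) f := by
  obtain ⟨Y, hY⟩ : ∃ Y, Y = (Finset.univ.image M).erase 0 := ⟨_, rfl⟩
  rw [← hY]
  have h3 : (∏ v ∈ Y, A0 ^ (-tt M σ v)) * ∏ v ∈ Y, ef (pv M σ v) = 1 := by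
    rw [← Finset.prod_mul_distrib]
    refine Finset.prod_eq_one fun v _ => ?_
    rw [ef_pv, ← zpow_add₀ A0_ne, neg_add_cancel, zpow_zero]
  have hF : FF Y (tt M σ) f = (∏ v ∈ Y, A0 ^ (-tt M σ v)) * ∑ U ∈ Y.powerset, pp M σ U * f U := by
    unfold FF
    rw [Finset.mul_sum]
    refine Finset.sum_congr rfl fun U hU => ?_
    have h2 : (∏ v ∈ U, A0 ^ (-tt M σ v)) * pp M σ U = ∏ v ∈ U, (1 - A0 ^ (-tt M σ v)) := by
      unfold pp
      rw [← Finset.prod_mul_distrib]
      refine Finset.prod_congr rfl fun v _ => ?_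
      rw [ef_pv, mul_sub, ← zpow_add₀ A0_ne, neg_add_cancel, zpow_zero, mul_one]
    rw [← Finset.prod_sdiff (Finset.mem_powerset.1 hU), ← h2]
    ring
  rw [hF]
  have hPF := ef_PF_pv M σ
  by_cases h0 : (0 : Fin n → ZMod 2) ∈ Finset.univ.image M
  · have hX : Finset.univ.image M = insert 0 Y := by
      rw [hY]
      exact (Finset.insert_erase h0).symm
    have h0Y : (0 : Fin n → ZMod 2) ∉ Y := by
      rw [hY]
      exact Finset.notMem_erase _ _
    rw [hX, Finset.prod_insert h0Y] at hPF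
    rw [hX, Finset.sum_powerset_insert h0Y, ← Finset.sum_add_distrib]
    have h4 : ∀ U ∈ Y.powerset, pp M σ U * f U + pp M σ (insert 0 U) * f (insert 0 U) =
        ef (pv M σ 0) * (pp M σ U * f U) := by
      intro U hU
      have h5 : (0 : Fin n → ZMod 2) ∉ U := fun h => h0Y (Finset.mem_powerset.1 hU h)
      have h6 : pp M σ (insert 0 U) = (ef (pv M σ 0) - 1) * pp M σ U := by
        unfold pp
        exact Finset.prod_insert h5
      rw [hf, h6]
      ring
    rw [Finset.sum_congr rfl h4, ← Finset.mul_sum]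
    linear_combination (∏ v ∈ Y, A0 ^ (-tt M σ v)) *
      (∑ U ∈ Y.powerset, pp M σ U * f U) * hPF -
      ef (PF ℤ σ) * ef (pv M σ 0) * (∑ U ∈ Y.powerset, pp M σ U * f U) * h3
  · have hX : Finset.univ.image M = Y := by
      rw [hY]
      exact (Finset.erase_eq_of_notMem h0).symm
    rw [hX] at hPF
    rw [hX]
    linear_combination (∏ v ∈ Y, A0 ^ (-tt M σ v)) *
      (∑ U ∈ Y.powerset, pp M σ U * f U) * hPF -
      ef (PF ℤ σ) * (∑ U ∈ Y.powerset, pp M σ U * f U) * h3

/-- the first order term in terms of the coranks -/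
theorem es_kap (M : Matrix (Fin n) (Fin n) (ZMod 2)) (hM : ∀ i j, M i j = M j i)
    (σ : Fin n → Bool) (S : Finset (Fin n)) (hS : Reps M S) :
    es (SS ℤ M σ) - 3 * ∑ c, (sg (σ c) : ℂ) =
      dd * FF S (fun i => tt M σ (M i)) fun V => (kap M V : ℂ) - V.card := by
  classical
  have hinj : Set.InjOn M (S : Set (Fin n)) := fun i hi j hj h => hS.inj i hi j hj h
  have hY : (Finset.univ.image M).erase 0 = S.image M := by
    ext v
    rw [Finset.mem_erase, Finset.mem_image, Finset.mem_image]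
    constructor
    · rintro ⟨h1, c, -, rfl⟩
      obtain ⟨w, hw, hcw⟩ := hS.cov c h1
      exact ⟨w, hw, hcw.symm⟩
    · rintro ⟨i, hi, rfl⟩
      exact ⟨hS.ne i hi, i, Finset.mem_univ i, rfl⟩
  have h1 := (es_SS M hM σ).2
  have h2 := sum_Y M σ (fun U => (ex M U : ℂ) - M.rank) fun U => by rw [ex_zero]
  have h3 : FF ((Finset.univ.image M).erase 0) (tt M σ) (fun U => (ex M U : ℂ) - M.rank) =
      FF S (fun i => tt M σ (M i)) fun V => (kap M V : ℂ) - V.card := by
    rw [hY, FF_image S M hinj]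
    refine FF_congr S _ _ _ _ (fun i _ => by rw [sub_self]; exact dvd_zero _) fun V _ => ?_
    have h4 := kap_ex M hM V
    have h5 : ((kap M V : ℂ) + M.rank) = V.card + ex M (V.image M) := by exact_mod_cast h4
    linear_combination -h5
  rw [h1, ← h3]
  linear_combination dd * h2

/-- **The first order term depends only on the shape and the residues modulo six** -/
theorem es_shape {n' : ℕ} {M : Matrix (Fin n) (Fin n) (ZMod 2)} {S : Finset (Fin n)}
    {M' : Matrix (Fin n') (Fin n') (ZMod 2)} {S' : Finset (Fin n')} {φ : Fin n → Fin n'}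
    {ψ : Fin n' → Fin n} (h : Same M S M' S' φ ψ) (hM : ∀ i j, M i j = M j i)
    (hM' : ∀ i j, M' i j = M' j i) (hS : Reps M S) (hS' : Reps M' S') (σ : Fin n → Bool)
    (σ' : Fin n' → Bool) (ht : ∀ i ∈ S, (6 : ℤ) ∣ tt M σ (M i) - tt M' σ' (M' (φ i))) :
    es (SS ℤ M σ) - 3 * ∑ c, (sg (σ c) : ℂ) = es (SS ℤ M' σ') - 3 * ∑ c, (sg (σ' c) : ℂ) := by
  rw [es_kap M hM σ S hS, es_kap M' hM' σ' S' hS']
  congr 1
  have hinj : Set.InjOn φ (S : Set (Fin n)) := by
    intro i hi j hj hij
    rw [← (h.map i hi).2, hij, (h.map j hj).2]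
  have h1 : S' = S.image φ := by
    ext c
    rw [Finset.mem_image]
    constructor
    · intro hc
      exact ⟨ψ c, (h.inv c hc).1, (h.inv c hc).2⟩
    · rintro ⟨i, hi, rfl⟩
      exact (h.map i hi).1
  have h2 : FF S' (fun i => tt M' σ' (M' i)) (fun V => (kap M' V : ℂ) - V.card) =
      FF S (fun i => tt M' σ' (M' (φ i))) fun V => (kap M' (V.image φ) : ℂ) - (V.image φ).card := by
    have h3 := FF_image S φ hinj (fun i => tt M' σ' (M' i)) fun V => (kap M' V : ℂ) - V.card
    rw [← h1] at h3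
    exact h3
  rw [h2]
  refine FF_congr S _ _ _ _ ht fun V hV => ?_
  rw [kap_shape h hM hM' hS hS' hV,
    Finset.card_image_of_injOn fun i hi j hj hij => hinj (hV hi) (hV hj) hij]

/-- the parity of a class -/
theorem cls_parity (M : Matrix (Fin n) (Fin n) (ZMod 2)) (σ : Fin n → Bool) (i : Fin n) :
    ((cls M i).card : ZMod 2) = ((tt M σ (M i) : ℤ) : ZMod 2) := by
  unfold tt cls
  rw [Int.cast_sum, Finset.card_eq_sum_ones, Nat.cast_sum]
  refine Finset.sum_congr ?_ fun c _ => ?_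
  · ext c
    simp only [Finset.mem_filter]
  · unfold sg
    cases σ c
    · simp only [Bool.false_eq_true, if_false]
      decide
    · simp only [if_true]
      decide

end Pool.Agent.SLB
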