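import Mathlib
import Pool.Agent.SLAB.Fin
import Pool.Agent.SLB.ShapeZ

/-!
# SLAB: diagrams of one shape, with twist numbers congruent modulo six (helper19)
-/

set_option autoImplicit false
set_option linter.unusedSectionVars false

open Submodule Module LaurentPolynomial
open Pool.Agent.Helper16.Knotoid Pool.Agent.UNI Pool.Agent.SPT Pool.Agent.EQT Pool.Agent.FHP
open Pool.Agent.SLAB (evA parallelWrithe moment parallel_eq)

namespace Pool.Agent.SLB

variable {n n' : ℕ}

/-- The twist classes of two diagrams correspond to each other by `φ : S → S'`: different classes are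
interlaced if and only if the corresponding classes are; a class contains two interlaced crossings if
and only if the corresponding class does; the twist numbers are congruent modulo `6`. -/
def SameShape (I : Fin n → Fin n → Prop) (e : Fin n → Bool) (S : Finset (Fin n))
    (I' : Fin n' → Fin n' → Prop) (e' : Fin n' → Bool) (S' : Finset (Fin n'))
    (φ : Fin n → Fin n') : Prop :=
  Set.BijOn φ (S : Set (Fin n)) (S' : Set (Fin n')) ∧
    (∀ i ∈ S, ∀ j ∈ S, i ≠ j → (I i j ↔ I' (φ i) (φ j))) ∧
    (∀ i ∈ S, (∃ j, Twins I i j ∧ I i j) ↔ ∃ j, Twins I' (φ i) j ∧ I' (φ i) j) ∧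
    ∀ i ∈ S, (6 : ℤ) ∣ twistNumber I e i - twistNumber I' e' (φ i)

section

variable {I : Fin n → Fin n → Prop} {e : Fin n → Bool} {S : Finset (Fin n)}

theorem reps_of (hi : ∀ i, ¬ I i i) (hs : ∀ i j, I i j → I j i) (hS : Transversal I S)
    {M : Matrix (Fin n) (Fin n) (ZMod 2)} (hM : ∀ i, row (Graph_R I e) i = M i) : Reps M S where
  ne v hv := by
    rw [← hM]
    exact (Graph_ne v).2 (hS.1 v hv)
  inj v hv w hw h := hS.2.1 v hv w hw ((Graph_row (e := e) hi hs v w).1 (by rw [hM, hM]; exact h))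
  cov c hc := by
    obtain ⟨s, hs1, hs2⟩ := hS.2.2 c ((Graph_ne (e := e) c).1 (by rw [hM]; exact hc))
    exact ⟨s, hs1, by rw [← hM, ← hM]; exact (Graph_row hi hs c s).2 hs2⟩

theorem tt_cut (hi : ∀ i, ¬ I i i) (hs : ∀ i j, I i j → I j i)
    {M : Matrix (Fin n) (Fin n) (ZMod 2)} (hM : ∀ i, row (Graph_R I e) i = M i) (i : Fin n) :
    tt M (cutState I e) (M i) = NHT.cutTwist I e i := by
  rw [← NHT.twist_row hi hs i]
  unfold twist tt
  refine Finset.sum_congr ?_ fun _ _ => rfl
  ext c
  simp only [Finset.mem_filter, Finset.mem_univ, true_and]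
  rw [hM c, hM i]

open Classical in
theorem mat_entry {M : Matrix (Fin n) (Fin n) (ZMod 2)} (hM : ∀ i, row (Graph_R I e) i = M i)
    (i j : Fin n) : M i j = if Graph_R I e i j then 1 else 0 := by
  rw [← hM i]
  rfl

theorem graph_ne {i j : Fin n} (h : i ≠ j) : Graph_R I e i j ↔ I i j := by
  unfold Graph_R
  exact ⟨fun h1 => h1.elim id fun h2 => absurd h2.1 h, Or.inl⟩

theorem graph_self (hi : ∀ i, ¬ I i i) (i : Fin n) :
    Graph_R I e i i ↔ ∃ j, Twins I i j ∧ I i j := by
  rw [← Graph_cut I e i]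
  unfold Graph_R
  exact ⟨fun h1 => h1.elim (fun h2 => absurd h2 (hi i)) fun h2 => h2.2, fun h1 => Or.inr ⟨rfl, h1⟩⟩

theorem es_empty {M : Matrix (Fin n) (Fin n) (ZMod 2)} (hM : ∀ i j, M i j = M j i)
    (σ : Fin n → Bool) (hS : Reps M ∅) :
    es (Lin.SS ℤ M σ) - 3 * ∑ c, (sg (σ c) : ℂ) = 0 := by
  rw [es_kap M hM σ ∅ hS]
  have h0 : ∀ c, M c = 0 := by
    intro c
    by_contra h
    obtain ⟨v, hv, -⟩ := hS.cov c h
    exact absurd hv (Finset.notMem_empty v)
  have h1 : LinearMap.ker (MW M (∅ : Finset (Fin n))).mulVecLin = ⊥ := by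
    rw [eq_bot_iff]
    intro x hx
    rw [Submodule.mem_bot]
    funext c
    rw [ker_off hx (Finset.notMem_empty c), mul_zero_row (h0 c)]
    rfl
  have h2 : Lin.kap M (∅ : Finset (Fin n)) = 0 := by
    unfold Lin.kap
    rw [h1, finrank_bot]
  unfold FF
  rw [Finset.powerset_empty, Finset.sum_singleton]
  simp [h2]

end

theorem first_eq {I : Fin n → Fin n → Prop} {e : Fin n → Bool} {S : Finset (Fin n)}
    {I' : Fin n' → Fin n' → Prop} {e' : Fin n' → Bool} {S' : Finset (Fin n')} {φ : Fin n → Fin n'}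
    (h : SameShape I e S I' e' S' φ) (hi : ∀ i, ¬ I i i) (hs : ∀ i j, I i j → I j i)
    (hS : Transversal I S) (hi' : ∀ i, ¬ I' i i) (hs' : ∀ i j, I' i j → I' j i)
    (hS' : Transversal I' S') {M : Matrix (Fin n) (Fin n) (ZMod 2)} (hMs : ∀ i j, M i j = M j i)
    (hM : ∀ i, row (Graph_R I e) i = M i) {M' : Matrix (Fin n') (Fin n') (ZMod 2)}
    (hMs' : ∀ i j, M' i j = M' j i) (hM' : ∀ i, row (Graph_R I' e') i = M' i) :
    es (Lin.SS ℤ M (cutState I e)) - 3 * ∑ c, (sg (cutState I e c) : ℂ) =
      es (Lin.SS ℤ M' (cutState I' e')) - 3 * ∑ c, (sg (cutState I' e' c) : ℂ) := by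
  classical
  obtain ⟨hb, hI, hp, ht⟩ := h
  have hR := reps_of hi hs hS hM
  have hR' := reps_of hi' hs' hS' hM'
  rcases S.eq_empty_or_nonempty with hE | ⟨i0, -⟩
  · have hE' : S' = ∅ := by
      rw [← Finset.coe_eq_empty, ← hb.image_eq, hE, Finset.coe_empty, Set.image_empty]
    rw [hE] at hR
    rw [hE'] at hR'
    rw [es_empty hMs _ hR, es_empty hMs' _ hR']
  · have hne : Nonempty (Fin n) := ⟨i0⟩
    have hsur : ∀ j ∈ S', ∃ i ∈ (S : Set (Fin n)), φ i = j := by
      intro j hj
      obtain ⟨i, hi1, hi2⟩ := hb.surjOn (Finset.mem_coe.2 hj)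
      exact ⟨i, hi1, hi2⟩
    have hinv : ∀ j ∈ S', Function.invFunOn φ (S : Set (Fin n)) j ∈ S ∧
        φ (Function.invFunOn φ (S : Set (Fin n)) j) = j :=
      fun j hj => ⟨Function.invFunOn_mem (hsur j hj), Function.invFunOn_eq (hsur j hj)⟩
    have htt : ∀ i ∈ S, (6 : ℤ) ∣ tt M (cutState I e) (M i) -
        tt M' (cutState I' e') (M' (φ i)) := by
      intro i hiS
      rw [tt_cut hi hs hM i, tt_cut hi' hs' hM' (φ i)]
      unfold NHT.cutTwist
      by_cases h1 : ∃ j, Twins I i j ∧ I i j
      · rw [if_pos h1, if_pos ((hp i hiS).1 h1)]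
        have h2 : -twistNumber I e i - -twistNumber I' e' (φ i) =
            -(twistNumber I e i - twistNumber I' e' (φ i)) := by ring
        rw [h2]
        exact (dvd_neg).2 (ht i hiS)
      · rw [if_neg h1, if_neg fun h2 => h1 ((hp i hiS).2 h2)]
        exact ht i hiS
    refine es_shape (φ := φ) (ψ := Function.invFunOn φ (S : Set (Fin n))) ?_ hMs hMs' hR hR' _ _ htt
    refine ⟨fun i hiS => ?_, hinv, fun i hiS j hjS => ?_, fun i hiS => ?_⟩
    · have h1 : φ i ∈ S' := Finset.mem_coe.1 (hb.mapsTo (Finset.mem_coe.2 hiS))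
      have h2 := hinv _ h1
      exact ⟨h1, hb.injOn (Finset.mem_coe.2 h2.1) (Finset.mem_coe.2 hiS) h2.2⟩
    · rw [mat_entry hM, mat_entry hM']
      have h1 : Graph_R I e i j ↔ Graph_R I' e' (φ i) (φ j) := by
        by_cases hij : i = j
        · rw [← hij, graph_self hi, graph_self hi']
          exact hp i hiS
        · have h2 : φ i ≠ φ j := fun h3 =>
            hij (hb.injOn (Finset.mem_coe.2 hiS) (Finset.mem_coe.2 hjS) h3)
          rw [graph_ne hij, graph_ne h2]
          exact hI i hiS j hjS hij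
      by_cases h3 : Graph_R I e i j
      · rw [if_pos h3, if_pos (h1.1 h3)]
      · rw [if_neg h3, if_neg fun h4 => h3 (h1.2 h4)]
    · rw [cls_parity M (cutState I e) i, cls_parity M' (cutState I' e') (φ i)]
      obtain ⟨k, hk⟩ := htt i hiS
      have h1 : tt M (cutState I e) (M i) = tt M' (cutState I' e') (M' (φ i)) + 6 * k := by
        linear_combination hk
      have h2 : ((6 : ℤ) : ZMod 2) = 0 := by decide
      rw [h1, Int.cast_add, Int.cast_mul, h2, zero_mul, add_zero]

theorem snd_normalized (D : GaussDiagram n) (σ : Fin n → Bool) :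
    (evA D.normalizedBracket).snd = es (Lin.SS ℤ (D.gmat σ) σ) - 3 * (D.writhe : ℂ) := by
  have hu : u0 = SLAB.uA := by
    apply Units.ext
    rw [SLAB.uA_val]
    rfl
  have hev : ∀ f : LaurentPolynomial ℤ, ev f = evA f := by
    intro f
    unfold ev SLAB.evA
    rw [hu]
  have h1 := (es_SS (D.gmat σ) (D.gmat_symm σ) σ).1
  unfold GaussDiagram.normalizedBracket
  rw [map_mul, SLAB.evA_sign, NHT.bracket_eqZ D σ, ← hev, sndm, SLAB.dn_fst, SLAB.dn_snd, one_mul,
    ← es_eq, ← ef_eq, h1, mul_one]
  ring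

/-- the first order term of a knotoid diagram -/
theorem knotoid_first (D : GaussDiagram n) :
    (evA D.normalizedBracket).snd + 6 * (parallelWrithe D.Interlaced D.sign : ℂ) =
      es (Lin.SS ℤ (D.gmat (cutState D.Interlaced D.sign)) (cutState D.Interlaced D.sign)) -
        3 * ∑ c, (sg (cutState D.Interlaced D.sign c) : ℂ) := by
  have h2 := parallel_eq D.Interlaced D.sign
  have h4 : D.writhe = ∑ c, if D.sign c then (1 : ℤ) else -1 := rfl
  rw [← h4] at h2
  have h3 : ∑ c, (sg (cutState D.Interlaced D.sign c) : ℂ) =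
      ((∑ c, if cutState D.Interlaced D.sign c then (1 : ℤ) else -1 : ℤ) : ℂ) := by
    rw [Int.cast_sum]
    rfl
  have h5 : ((D.writhe : ℂ) - ((∑ c, if cutState D.Interlaced D.sign c then (1 : ℤ) else -1 : ℤ) : ℂ)) =
      2 * (parallelWrithe D.Interlaced D.sign : ℂ) := by
    exact_mod_cast h2
  rw [snd_normalized D (cutState D.Interlaced D.sign), h3]
  linear_combination -3 * h5

theorem pair_shape (f f' : LaurentPolynomial ℤ) (w w' : ℤ)
    (h : (evA f).snd + 6 * (w : ℂ) = (evA f').snd + 6 * (w' : ℂ)) :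
    6 * |w - w'| ≤ moment (f - f') := by
  have h3 := SLAB.snd_bound (f - f')
  rw [map_sub, TrivSqZeroExt.snd_sub] at h3
  have h4 : (evA f).snd - (evA f').snd = ((-6 * (w - w') : ℤ) : ℂ) := by
    push_cast
    linear_combination h
  rw [h4, Complex.norm_intCast] at h3
  have h5 : |(-6 * (w - w') : ℤ)| = 6 * |w - w'| := by
    rw [abs_mul]
    norm_num
  have h6 : |(-6 * (w - w') : ℤ)| ≤ moment (f - f') := by exact_mod_cast h3
  rw [h5] at h6
  exact h6

/-- **Knotoid diagrams** of one shape with twist numbers congruent modulo `6` -/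
theorem shapeKnotoid (D : GaussDiagram n) (S : Finset (Fin n)) (hS : Transversal D.Interlaced S)
    (D' : GaussDiagram n') (S' : Finset (Fin n')) (hS' : Transversal D'.Interlaced S')
    (φ : Fin n → Fin n')
    (h : SameShape D.Interlaced D.sign S D'.Interlaced D'.sign S' φ) :
    6 * |parallelWrithe D.Interlaced D.sign - parallelWrithe D'.Interlaced D'.sign| ≤
      moment (D.normalizedBracket - D'.normalizedBracket) := by
  refine pair_shape _ _ _ _ ?_
  rw [knotoid_first D, knotoid_first D']
  refine first_eq h (Graph_irrefl D) (Graph_int_symm D) hS (Graph_irrefl D') (Graph_int_symm D') hS'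
    (D.gmat_symm _) (fun i => ?_) (D'.gmat_symm _) fun i => ?_
  · rw [← row_eq D (cutState D.Interlaced D.sign)]
    rfl
  · rw [← row_eq D' (cutState D'.Interlaced D'.sign)]
    rfl

/-- the first order term of a knot diagram -/
theorem knot_first (g : GaussJones.Code n) (e : Fin n → Bool) :
    ∃ M : Matrix (Fin n) (Fin n) (ZMod 2), (∀ i j, M i j = M j i) ∧
      (∀ i, row (Graph_R (GaussJones.Interlaced g) e) i = M i) ∧
      (evA (GaussJones.fPoly g e)).snd + 6 * (parallelWrithe (GaussJones.Interlaced g) e : ℂ) =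
        es (Lin.SS ℤ M (cutState (GaussJones.Interlaced g) e)) -
          3 * ∑ c, (sg (cutState (GaussJones.Interlaced g) e c) : ℂ) := by
  classical
  rcases Nat.eq_zero_or_pos n with hn | hn
  · subst hn
    refine ⟨0, fun i _ => Fin.elim0 i, fun i => Fin.elim0 i, ?_⟩
    have h1 : parallelWrithe (GaussJones.Interlaced g) e = 0 := by
      unfold parallelWrithe
      exact Finset.sum_eq_zero fun i _ => Fin.elim0 i
    have h3 : GaussJones.fPoly g e = 1 := by
      unfold GaussJones.fPoly GaussJones.bracket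
      have h4 : ∀ s : Fin 0 → Bool, GaussJones.loops g s = 0 := by
        intro s
        unfold GaussJones.loops
        have : IsEmpty (Quot (GaussJones.Joined g s)) := ⟨fun q => by
          obtain ⟨k, -⟩ := Quot.exists_rep q
          exact Fin.elim0 k⟩
        exact Nat.card_of_isEmpty
      simp [h4]
    rw [es_empty (M := (0 : Matrix (Fin 0) (Fin 0) (ZMod 2))) (fun i _ => Fin.elim0 i) _
      ⟨fun v => Fin.elim0 v, fun v => Fin.elim0 v, fun v => Fin.elim0 v⟩, h1, h3, map_one,
      TrivSqZeroExt.snd_one, Int.cast_zero, mul_zero, add_zero]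
  · have h0 : (UNI.cutOpen g e).Cut (cutState (GaussJones.Interlaced g) e) =
        Graph_R (GaussJones.Interlaced g) e := by
      have h1 : GaussJones.Cut g e (cutState (GaussJones.Interlaced g) e) =
          Graph_R (GaussJones.Interlaced g) e := rfl
      rw [← h1]
      funext i j
      exact (propext (UNI.cut_closed g e _ i j)).symm
    refine ⟨(UNI.cutOpen g e).gmat (cutState (GaussJones.Interlaced g) e),
      (UNI.cutOpen g e).gmat_symm _, fun i => ?_, ?_⟩
    · rw [← row_eq (UNI.cutOpen g e) (cutState (GaussJones.Interlaced g) e), h0]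
    · have h2 := parallel_eq (GaussJones.Interlaced g) e
      have h4 : (UNI.cutOpen g e).writhe = ∑ c, if e c then (1 : ℤ) else -1 := rfl
      rw [← h4] at h2
      have h3 : ∑ c, (sg (cutState (GaussJones.Interlaced g) e c) : ℂ) =
          ((∑ c, if cutState (GaussJones.Interlaced g) e c then (1 : ℤ) else -1 : ℤ) : ℂ) := by
        rw [Int.cast_sum]
        rfl
      have h5 : (((UNI.cutOpen g e).writhe : ℂ) -
          ((∑ c, if cutState (GaussJones.Interlaced g) e c then (1 : ℤ) else -1 : ℤ) : ℂ)) =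
          2 * (parallelWrithe (GaussJones.Interlaced g) e : ℂ) := by
        exact_mod_cast h2
      rw [f_closed hn g e, snd_normalized (UNI.cutOpen g e) (cutState (GaussJones.Interlaced g) e), h3]
      linear_combination -3 * h5

/-- **Knot diagrams** of one shape with twist numbers congruent modulo `6` -/
theorem shapeKnot (g : GaussJones.Code n) (e : Fin n → Bool) (S : Finset (Fin n))
    (hS : Transversal (GaussJones.Interlaced g) S) (g' : GaussJones.Code n')
    (e' : Fin n' → Bool) (S' : Finset (Fin n'))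
    (hS' : Transversal (GaussJones.Interlaced g') S') (φ : Fin n → Fin n')
    (h : SameShape (GaussJones.Interlaced g) e S (GaussJones.Interlaced g') e' S' φ) :
    6 * |parallelWrithe (GaussJones.Interlaced g) e -
        parallelWrithe (GaussJones.Interlaced g') e'| ≤
      moment (GaussJones.fPoly g e - GaussJones.fPoly g' e') := by
  obtain ⟨M, hMs, hM, h1⟩ := knot_first g e
  obtain ⟨M', hMs', hM', h1'⟩ := knot_first g' e'
  refine pair_shape _ _ _ _ ?_
  rw [h1, h1']
  have hi : ∀ {m : ℕ} (g : GaussJones.Code m) (i), ¬ GaussJones.Interlaced g i i := by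
    intro m g i h
    rcases h with h | h <;> exact lt_irrefl _ h.1
  exact first_eq h (hi g) (fun i j h => h.symm) hS (hi g') (fun i j h => h.symm) hS' hMs hM hMs' hM'

end Pool.Agent.SLB
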